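import Pool.Agent.Lib.MP_3bb35d_al.LE.F3

/-!
# Expansion in `PSL₂(p)` is a local property

For all `k` and `δ > 0` there is `ε > 0` such that for every prime `p` and every generating set `S` of `PSL₂(p)` with at
most `k` elements the Cayley graph is an `ε`-expander as soon as

* the sets of at most `p ^ δ` points of some finite nonempty set on which `PSL₂(p)` acts (for example the projective line)
  expand under `S`, with constant `δ`, or
* for some `n ≤ (log p) / δ` the proportion of the words of length `2 n` in `S ∪ S⁻¹` which are trivial is at most `p ^ (-δ)`.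

Hence for every `k` the uniform expansion of the groups `PSL₂(p)` (Q1) is equivalent to the uniform expansion of the sets
of at most `p ^ δ` points of the projective line over `ZMod p`.
-/

set_option autoImplicit false

open scoped LinearAlgebra.Projectivization

namespace Pool.Agent.Results.MP_3bb35d_al.LocalExpansion

/-- The edge boundary of `A` in the Cayley graph `Cay(G, S)`: an edge `{g, g s}`, `s ∈ S ∪ S⁻¹`, with exactly one end
point in `A` is counted as the pair (end point in `A`, end point outside of `A`). -/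
def EdgeBoundary {G : Type*} [Group G] (S A : Set G) : Set (G × G) :=
  {e | e.1 ∈ A ∧ e.2 ∉ A ∧ ∃ s ∈ S, e.2 = e.1 * s ∨ e.1 = e.2 * s}

/-- `Cay(G, S)` is an `ε`-expander: `|∂A| ≥ ε |A|` for every `A ⊆ G` with `|A| ≤ |G| / 2`. -/
def IsExpander {G : Type*} [Group G] (ε : ℝ) (S : Set G) : Prop :=
  ∀ A : Set G, 2 * A.ncard ≤ Nat.card G → ε * A.ncard ≤ (EdgeBoundary S A).ncard

/-- The set `S ∪ S⁻¹`. -/
def Sym {G : Type*} [Group G] (S : Set G) : Set G := {s | s ∈ S ∨ s⁻¹ ∈ S}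

/-- The pairs `(x, s)`, `x ∈ A`, `s ∈ S ∪ S⁻¹`, such that `s x ∉ A`. -/
def Leaving {G X : Type*} [Group G] [MulAction G X] (S : Set G) (A : Set X) : Set (X × G) :=
  {q | q.1 ∈ A ∧ q.2 ∈ Sym S ∧ q.2 • q.1 ∉ A}

/-- The sets of at most `p ^ δ` points of `X` expand: at least `δ |A|` pairs leave `A`. -/
def TinyExpand {G : Type*} [Group G] (p : ℕ) (δ : ℝ) (S : Set G) (X : Type*) [MulAction G X] :
    Prop :=
  ∀ A : Set X, (A.ncard : ℝ) ≤ (p : ℝ) ^ δ → δ * A.ncard ≤ (Leaving S A).ncard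

/-- The words of length `n` in `S ∪ S⁻¹` with trivial product. -/
def TrivialWords {G : Type*} [Group G] (S : Set G) (n : ℕ) : Set (Fin n → G) :=
  {w | (∀ i, w i ∈ Sym S) ∧ (List.ofFn w).prod = 1}

/-- For some `n ≥ 1`, `n ≤ (log p) / δ`, at most the proportion `p ^ (-δ)` of the words of length `2 n` in `S ∪ S⁻¹` is
trivial. -/
def FewTrivialWords {G : Type*} [Group G] (p : ℕ) (δ : ℝ) (S : Set G) : Prop :=
  ∃ n : ℕ, 1 ≤ n ∧ (n : ℝ) ≤ Real.log p / δ ∧
    ((TrivialWords S (2 * n)).ncard : ℝ) ≤ (p : ℝ) ^ (-δ) * ((Sym S).ncard : ℝ) ^ (2 * n)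

/-- The group `PSL₂(p)`. -/
abbrev PSL2 (p : ℕ) : Type := Matrix.ProjectiveSpecialLinearGroup (Fin 2) (ZMod p)

/-- The projective line over `ZMod p`. -/
abbrev Line (p : ℕ) [Fact p.Prime] : Type := ℙ (ZMod p) (Fin 2 → ZMod p)

/-- **Expansion in `PSL₂(p)` is a local property.** -/
theorem result :
    (∀ (k : ℕ) (δ : ℝ), 0 < δ → ∃ ε : ℝ, 0 < ε ∧ ∀ p : ℕ, p.Prime → ∀ S : Set (PSL2 p),
      Subgroup.closure S = ⊤ → S.ncard ≤ k →
      ((∃ (X : Type) (_ : MulAction (PSL2 p) X), Finite X ∧ Nonempty X ∧ TinyExpand p δ S X) ∨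
        FewTrivialWords p δ S) →
      IsExpander ε S) ∧
    ∀ k : ℕ,
      (∃ ε : ℝ, 0 < ε ∧ ∀ p : ℕ, p.Prime → ∀ S : Set (PSL2 p),
        Subgroup.closure S = ⊤ → S.ncard ≤ k → IsExpander ε S) ↔
      ∃ δ : ℝ, 0 < δ ∧ ∀ (p : ℕ) [Fact p.Prime], ∀ S : Set (PSL2 p),
        Subgroup.closure S = ⊤ → S.ncard ≤ k → TinyExpand p δ S (Line p) := by
  refine ⟨fun k δ hδ => ?_, fun k => ?_⟩
  · obtain ⟨ε₁, hε₁, h₁⟩ := Pool.Agent.Lib.MP_3bb35d_al.LE.tiny_criterion k δ hδ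
    obtain ⟨ε₂, hε₂, h₂⟩ := Pool.Agent.Lib.MP_3bb35d_al.LE.return_criterion k δ hδ
    refine ⟨min ε₁ ε₂, lt_min hε₁ hε₂, fun p hp S hS hk h A hA => ?_⟩
    have hf : Fact p.Prime := ⟨hp⟩
    rcases h with ⟨X, hX, hX1, hX2, hX3⟩ | ⟨n, hn1, hn2, hn3⟩
    · have := h₁ p hf S hS hk X hX3 A hA
      exact (mul_le_mul_of_nonneg_right (min_le_left _ _) (Nat.cast_nonneg _)).trans this
    · have := h₂ p hf S hS hk n hn1 hn2 hn3 A hA
      exact (mul_le_mul_of_nonneg_right (min_le_right _ _) (Nat.cast_nonneg _)).trans this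
  · have h := Pool.Agent.Lib.MP_3bb35d_al.LE.Q1_iff k
    constructor
    · rintro ⟨ε, hε, h1⟩
      obtain ⟨δ, hδ, h2⟩ := h.1 ⟨ε, hε, fun p hp S hS hk => h1 p hp.1 S hS hk⟩
      exact ⟨δ, hδ, fun p hp S hS hk A hA => h2 p hp S hS hk A hA⟩
    · rintro ⟨δ, hδ, h1⟩
      obtain ⟨ε, hε, h2⟩ := h.2 ⟨δ, hδ, fun p hp S hS hk A hA => h1 p S hS hk A hA⟩
      exact ⟨ε, hε, fun p hp S hS hk => h2 p ⟨hp⟩ S hS hk⟩

end Pool.Agent.Results.MP_3bb35d_al.LocalExpansion
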