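import Pool.Agent.Lib.MP_3bb35d_al.UE.Z10b
import Pool.Agent.Lib.MP_3bb35d_al.UE.Z11b

/-!
# Uniform expansion of `PSL₂(p)`, for every prime `p`, outside of sparse sets

(1) For every `δ > 0` there is `c > 0` such that for every prime `p` there is a set `T` of at most `p ^ δ` elements of
`ZMod p` with: every generating set `S` of `PSL₂(p)`, of any size, for which some product of at most `N ≥ 1` elements
of `S ∪ S⁻¹` has a trace outside of `T`, gives a `(c / N)`-expander. In particular (`N = 1`): every generating set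
containing an element whose trace is not in `T` is a `c`-expander.

(2) For all `k` and `δ > 0` there is `ε > 0` such that for every prime `p` at most `p ^ (3 + δ)` generating `k`-tuples
of `PSL₂(p)` do not give an `ε`-expander, and they lie in at most `p ^ δ` classes under the automorphism group.
-/

set_option autoImplicit false

namespace Pool.Agent.Results.MP_3bb35d_al.UniformExpansion

/-- The edge boundary of `A` in the Cayley graph `Cay(G, S)`: an edge `{g, g s}`, `s ∈ S ∪ S⁻¹`, with exactly one end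
point in `A` is counted as the pair (end point in `A`, end point outside of `A`). -/
def EdgeBoundary {G : Type*} [Group G] (S A : Set G) : Set (G × G) :=
  {e | e.1 ∈ A ∧ e.2 ∉ A ∧ ∃ s ∈ S, e.2 = e.1 * s ∨ e.1 = e.2 * s}

/-- `Cay(G, S)` is an `ε`-expander: `|∂A| ≥ ε |A|` for every `A ⊆ G` with `|A| ≤ |G| / 2`. -/
def IsExpander {G : Type*} [Group G] (ε : ℝ) (S : Set G) : Prop :=
  ∀ A : Set G, 2 * A.ncard ≤ Nat.card G → ε * A.ncard ≤ (EdgeBoundary S A).ncard

/-- The products of at most `N` elements of `S ∪ S⁻¹`. -/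
def Ball {G : Type*} [Group G] (S : Set G) (N : ℕ) : Set G :=
  {g | ∃ l : List G, l.length ≤ N ∧ (∀ x ∈ l, x ∈ S ∨ x⁻¹ ∈ S) ∧ l.prod = g}

/-- The group `SL₂(p)`. -/
abbrev SL2 (p : ℕ) : Type := Matrix.SpecialLinearGroup (Fin 2) (ZMod p)

/-- The group `PSL₂(p)`. -/
abbrev PSL2 (p : ℕ) : Type := Matrix.ProjectiveSpecialLinearGroup (Fin 2) (ZMod p)

/-- **Uniform expansion of `PSL₂(p)`** for every prime, outside of sparse exceptional sets. -/
theorem result :
    (∀ δ : ℝ, 0 < δ → ∃ c : ℝ, 0 < c ∧ ∀ p : ℕ, p.Prime →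
      ∃ T : Finset (ZMod p), (T.card : ℝ) ≤ (p : ℝ) ^ δ ∧
        ∀ S : Set (PSL2 p), Subgroup.closure S = ⊤ → ∀ N : ℕ, 1 ≤ N →
          (∃ g : SL2 p, (QuotientGroup.mk g : PSL2 p) ∈ Ball S N ∧
            Matrix.trace (g : Matrix (Fin 2) (Fin 2) (ZMod p)) ∉ T) →
          IsExpander (c / N) S) ∧
    (∀ (k : ℕ) (δ : ℝ), 0 < δ → ∃ ε : ℝ, 0 < ε ∧ ∀ p : ℕ, p.Prime →
      ({S : Fin k → PSL2 p | Subgroup.closure (Set.range S) = ⊤ ∧
        ¬ IsExpander ε (Set.range S)}.ncard : ℝ) ≤ (p : ℝ) ^ (3 + δ) ∧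
      ∃ R : Finset (Fin k → PSL2 p), (R.card : ℝ) ≤ (p : ℝ) ^ δ ∧
        ∀ S : Fin k → PSL2 p, Subgroup.closure (Set.range S) = ⊤ →
          ¬ IsExpander ε (Set.range S) →
          ∃ φ : PSL2 p ≃* PSL2 p, (fun i => φ (S i)) ∈ R) := by
  refine ⟨fun δ hδ => ?_, fun k δ hδ => ?_⟩
  · obtain ⟨c, hc, h⟩ := Pool.Agent.Lib.MP_3bb35d_al.UE.trace_criterion δ hδ
    refine ⟨c, hc, fun p hp => ?_⟩
    obtain ⟨T, hT, hS⟩ := h p hp
    refine ⟨T, hT, fun S hgen N hN ⟨g, hg, ht⟩ => hS S hgen N hN ⟨g, hg, ?_⟩⟩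
    rw [Matrix.trace_fin_two] at ht
    exact ht
  · obtain ⟨ε, hε, h⟩ := Pool.Agent.Lib.MP_3bb35d_al.UE.uniform_expansion k δ hδ
    refine ⟨ε, hε, fun p hp => ?_⟩
    obtain ⟨h1, R, hR, h2⟩ := h p hp
    refine ⟨h1, R, hR, fun S hgen hne => ?_⟩
    obtain ⟨φ, S', hS', rfl⟩ := h2 S hgen hne
    exact ⟨φ, hS'⟩

end Pool.Agent.Results.MP_3bb35d_al.UniformExpansion
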